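import Mathlib

/-! Coincidences of products of rounded dilates: exact description and probability. -/

set_option autoImplicit false

open MeasureTheory Set

namespace Pool.Agent.Zk93.Bty

/-- the rounded dilate -/
noncomputable def fl (α : ℝ) (x : ℕ) : ℤ := ⌊α * x⌋

/-- the first order part of a coincidence -/
def FO (α : ℝ) (x y z w : ℕ) : Prop :=
  (x : ℤ) * fl α y + y * fl α x = z * fl α w + w * fl α z

theorem fl_le (α : ℝ) (x : ℕ) : (fl α x : ℝ) ≤ α * x := Int.floor_le _

theorem lt_fl (α : ℝ) (x : ℕ) : α * x - 1 < (fl α x : ℝ) := Int.sub_one_lt_floor _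

/-- a coincidence forces `x y = z w` and a coincidence to first order -/
theorem coin {α : ℝ} {M x y z w : ℕ} (hM : 2 * M + 1 ≤ α) (hx : x ≤ M) (hy : y ≤ M) (hz : z ≤ M)
    (hw : w ≤ M) (h : fl α x * fl α y = fl α z * fl α w) :
    x * y = z * w ∧ FO α x y z w := by
  have hM0 : (0 : ℝ) ≤ M := Nat.cast_nonneg M
  have hα : 1 ≤ α := by linarith
  have hxr : (x : ℝ) ≤ M := by exact_mod_cast hx
  have hyr : (y : ℝ) ≤ M := by exact_mod_cast hy
  have hzr : (z : ℝ) ≤ M := by exact_mod_cast hz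
  have hwr : (w : ℝ) ≤ M := by exact_mod_cast hw
  have hx0 : (0 : ℝ) ≤ x := Nat.cast_nonneg x
  have hy0 : (0 : ℝ) ≤ y := Nat.cast_nonneg y
  have hz0 : (0 : ℝ) ≤ z := Nat.cast_nonneg z
  have hw0 : (0 : ℝ) ≤ w := Nat.cast_nonneg w
  obtain ⟨a, ha⟩ : ∃ a : ℝ, a = α * x - fl α x := ⟨_, rfl⟩
  obtain ⟨b, hb⟩ : ∃ b : ℝ, b = α * y - fl α y := ⟨_, rfl⟩
  obtain ⟨c, hc⟩ : ∃ c : ℝ, c = α * z - fl α z := ⟨_, rfl⟩
  obtain ⟨e, he⟩ : ∃ e : ℝ, e = α * w - fl α w := ⟨_, rfl⟩
  have ha0 : 0 ≤ a := by have := fl_le α x; linarith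
  have hb0 : 0 ≤ b := by have := fl_le α y; linarith
  have hc0 : 0 ≤ c := by have := fl_le α z; linarith
  have he0 : 0 ≤ e := by have := fl_le α w; linarith
  have ha1 : a < 1 := by have := lt_fl α x; linarith
  have hb1 : b < 1 := by have := lt_fl α y; linarith
  have hc1 : c < 1 := by have := lt_fl α z; linarith
  have he1 : e < 1 := by have := lt_fl α w; linarith
  have hr : ((fl α x : ℤ) : ℝ) * fl α y = fl α z * fl α w := by exact_mod_cast h
  have e1 : ((fl α x : ℤ) : ℝ) = α * x - a := by rw [ha]; ring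
  have e2 : ((fl α y : ℤ) : ℝ) = α * y - b := by rw [hb]; ring
  have e3 : ((fl α z : ℤ) : ℝ) = α * z - c := by rw [hc]; ring
  have e4 : ((fl α w : ℤ) : ℝ) = α * w - e := by rw [he]; ring
  rw [e1, e2, e3, e4] at hr
  have key : α * (α * ((x : ℝ) * y - z * w) - (x * b + y * a - z * e - w * c)) =
      c * e - a * b := by linear_combination hr
  have hce : c * e < 1 := mul_lt_one_of_nonneg_of_lt_one_left hc0 hc1 he1.le
  have hab : a * b < 1 := mul_lt_one_of_nonneg_of_lt_one_left ha0 ha1 hb1.le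
  have hce0 : 0 ≤ c * e := by positivity
  have hab0 : 0 ≤ a * b := by positivity
  have k1 : |α * ((x : ℝ) * y - z * w) - (x * b + y * a - z * e - w * c)| < 1 := by
    have h1 : |α * (α * ((x : ℝ) * y - z * w) - (x * b + y * a - z * e - w * c))| < 1 := by
      rw [key, abs_lt]
      constructor <;> linarith
    rw [abs_mul, abs_of_pos (by linarith : (0 : ℝ) < α)] at h1
    have h2 := abs_nonneg (α * ((x : ℝ) * y - z * w) - (x * b + y * a - z * e - w * c))
    refine lt_of_le_of_lt ?_ h1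
    exact le_mul_of_one_le_left h2 hα
  have hprod : ∀ p q : ℝ, 0 ≤ p → p ≤ M → 0 ≤ q → q < 1 → p * q ≤ M := by
    intro p q hp hpM hq hq1
    calc p * q ≤ M * 1 := mul_le_mul hpM hq1.le hq hM0
      _ = M := mul_one _
  have hxb : (x : ℝ) * b ≤ M := hprod _ _ hx0 hxr hb0 hb1
  have hya : (y : ℝ) * a ≤ M := hprod _ _ hy0 hyr ha0 ha1
  have hze : (z : ℝ) * e ≤ M := hprod _ _ hz0 hzr he0 he1
  have hwc : (w : ℝ) * c ≤ M := hprod _ _ hw0 hwr hc0 hc1
  have hxb0 : 0 ≤ (x : ℝ) * b := by positivity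
  have hya0 : 0 ≤ (y : ℝ) * a := by positivity
  have hze0 : 0 ≤ (z : ℝ) * e := by positivity
  have hwc0 : 0 ≤ (w : ℝ) * c := by positivity
  rw [abs_lt] at k1
  have hxy : x * y = z * w := by
    by_contra hne
    have hne' : ((x * y : ℕ) : ℤ) - ((z * w : ℕ) : ℤ) ≠ 0 := by
      intro h0
      apply hne
      exact_mod_cast sub_eq_zero.1 h0
    have h1 : 1 ≤ |((x * y : ℕ) : ℤ) - ((z * w : ℕ) : ℤ)| := Int.one_le_abs hne'
    have h2 : (1 : ℝ) ≤ |(x : ℝ) * y - z * w| := by
      have := (Int.cast_le (R := ℝ)).2 h1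
      push_cast at this
      exact this
    have hα0 : 0 ≤ α := by linarith
    rcases le_abs.1 h2 with h3 | h3
    · have h4 : α ≤ α * ((x : ℝ) * y - z * w) := le_mul_of_one_le_right hα0 h3
      linarith [k1.1, k1.2]
    · have h4 : α ≤ α * -((x : ℝ) * y - z * w) := le_mul_of_one_le_right hα0 h3
      rw [mul_neg] at h4
      linarith [k1.1, k1.2]
  refine ⟨hxy, ?_⟩
  have hxyr : (x : ℝ) * y = z * w := by exact_mod_cast hxy
  have h5 : |(((x : ℤ) * fl α y + y * fl α x - (z * fl α w + w * fl α z) : ℤ) : ℝ)| < 1 := by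
    push_cast
    rw [e1, e2, e3, e4]
    have e5 : (x : ℝ) * (α * y - b) + y * (α * x - a) - (z * (α * w - e) + w * (α * z - c)) =
        2 * α * ((x : ℝ) * y - z * w) - (x * b + y * a - z * e - w * c) := by ring
    rw [e5, abs_lt]
    rw [hxyr, sub_self, mul_zero] at k1 ⊢
    exact ⟨by linarith [k1.1], by linarith [k1.2]⟩
  have h6 : |(x : ℤ) * fl α y + y * fl α x - (z * fl α w + w * fl α z)| < 1 := by
    exact_mod_cast h5
  have h7 := Int.abs_lt_one_iff.1 h6
  unfold FO
  linarith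

/-- the bound for the commutator -/
theorem gs_lt (α : ℝ) (a b u v : ℕ) (hu : 0 < u) (hv : 0 < v) (hab : a * v = b * u) :
    |(u : ℤ) * fl α b - v * fl α a| < max u v := by
  -- `b = s v`, `a = s u`: `α a v = α b u`
  have h1 : (a : ℝ) * v = b * u := by exact_mod_cast hab
  have hur : (0 : ℝ) < u := by exact_mod_cast hu
  have hvr : (0 : ℝ) < v := by exact_mod_cast hv
  have ha1 := fl_le α a
  have ha2 := lt_fl α a
  have hb1 := fl_le α b
  have hb2 := lt_fl α b
  have h2 : (u : ℝ) * (α * b) = v * (α * a) := by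
    have : (u : ℝ) * (α * b) = α * (b * u) := by ring
    rw [this, ← h1]
    ring
  have h3 : ((u : ℝ) * fl α b - v * fl α a) < v := by nlinarith
  have h4 : -(u : ℝ) < ((u : ℝ) * fl α b - v * fl α a) := by nlinarith
  have h5 : |((u : ℝ) * fl α b - v * fl α a)| < max (u : ℝ) v := by
    rw [abs_lt]
    exact ⟨by have := le_max_left (u : ℝ) v; linarith, by have := le_max_right (u : ℝ) v; linarith⟩
  exact_mod_cast h5

/-- the structure of the first order coincidences -/
theorem fo_struct {α : ℝ} {s t u' v' g : ℕ} (hs : 0 < s) (ht : 0 < t) (hg : 0 < g) (hu : 0 < u')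
    (hv : 0 < v') (hst : Nat.Coprime s t) (hH : max u' v' ≤ max s t)
    (h : FO α (t * (g * u')) (s * (g * v')) (s * (g * u')) (t * (g * v'))) :
    (u' : ℤ) * fl α (s * (g * v')) = v' * fl α (s * (g * u')) := by
  set u : ℕ := g * u' with hu_def
  set v : ℕ := g * v' with hv_def
  have hu0 : 0 < u := Nat.mul_pos hg hu
  have hv0 : 0 < v := Nat.mul_pos hg hv
  set Gs : ℤ := (u : ℤ) * fl α (s * v) - v * fl α (s * u) with hGs
  set Gt : ℤ := (u : ℤ) * fl α (t * v) - v * fl α (t * u) with hGt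
  have b1 : |Gs| < max u v := gs_lt α (s * u) (s * v) u v hu0 hv0 (by ring)
  have b2 : |Gt| < max u v := gs_lt α (t * u) (t * v) u v hu0 hv0 (by ring)
  have h1 : (t : ℤ) * Gs = s * Gt := by
    unfold FO at h
    rw [hGs, hGt]
    push_cast at h ⊢
    linear_combination h
  have hsG : (s : ℤ) ∣ Gs := by
    have h2 : (s : ℤ) ∣ t * Gs := ⟨Gt, h1⟩
    exact (Nat.isCoprime_iff_coprime.2 hst).dvd_of_dvd_mul_left h2
  obtain ⟨k, hk⟩ := hsG
  have hkt : Gt = t * k := by
    have hs0 : (s : ℤ) ≠ 0 := by exact_mod_cast hs.ne'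
    apply mul_left_cancel₀ hs0
    rw [← h1, hk]
    ring
  have hgs : (g : ℤ) ∣ Gs := by
    refine ⟨(u' : ℤ) * fl α (s * v) - v' * fl α (s * u), ?_⟩
    rw [hGs, hu_def, hv_def]
    push_cast
    ring
  have hgt : (g : ℤ) ∣ Gt := by
    refine ⟨(u' : ℤ) * fl α (t * v) - v' * fl α (t * u), ?_⟩
    rw [hGt, hu_def, hv_def]
    push_cast
    ring
  have hgk : (g : ℤ) ∣ k := by
    rw [hk] at hgs
    rw [hkt] at hgt
    obtain ⟨a, b, hab⟩ := Nat.isCoprime_iff_coprime.2 hst
    have : k = a * (s * k) + b * (t * k) := by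
      calc k = (a * s + b * t) * k := by rw [hab, one_mul]
        _ = _ := by ring
    rw [this]
    exact dvd_add (Dvd.dvd.mul_left hgs a) (Dvd.dvd.mul_left hgt b)
  have hk0 : k = 0 := by
    by_contra hk0
    have hgk' : (g : ℤ) ≤ |k| := Int.le_of_dvd (abs_pos.2 hk0) ((dvd_abs _ _).2 hgk)
    have e1 : |Gs| = s * |k| := by rw [hk, abs_mul, Nat.abs_cast]
    have e2 : |Gt| = t * |k| := by rw [hkt, abs_mul, Nat.abs_cast]
    have hmax : (max u v : ℕ) = g * max u' v' := by
      rw [hu_def, hv_def]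
      exact (Nat.mul_max_mul_left g u' v').symm ▸ rfl
    have hmz : ((max u v : ℕ) : ℤ) = g * max u' v' := by rw [hmax]; push_cast; rfl
    have hb1' : (s : ℤ) * |k| < g * max u' v' := by rw [← e1, ← hmz]; exact_mod_cast b1
    have hb2' : (t : ℤ) * |k| < g * max u' v' := by rw [← e2, ← hmz]; exact_mod_cast b2
    have hg0 : (0 : ℤ) < g := by exact_mod_cast hg
    have hs' : (s : ℤ) * g ≤ s * |k| := by
      have : (0 : ℤ) ≤ s := by positivity
      nlinarith
    have ht' : (t : ℤ) * g ≤ t * |k| := by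
      have : (0 : ℤ) ≤ t := by positivity
      nlinarith
    generalize max u' v' = W at *
    rcases le_total s t with hle | hle
    · rw [max_eq_right hle] at hH
      have h7 : (W : ℤ) ≤ t := by exact_mod_cast hH
      have h8 := mul_le_mul_of_nonneg_left h7 hg0.le
      have h9 : (t : ℤ) * g = g * t := mul_comm _ _
      linarith
    · rw [max_eq_left hle] at hH
      have h7 : (W : ℤ) ≤ s := by exact_mod_cast hH
      have h8 := mul_le_mul_of_nonneg_left h7 hg0.le
      have h9 : (s : ℤ) * g = g * s := mul_comm _ _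
      linarith
  have h8 : Gs = 0 := by rw [hk, hk0, mul_zero]
  have hg0 : (g : ℤ) ≠ 0 := by exact_mod_cast hg.ne'
  have h9 : (g : ℤ) * ((u' : ℤ) * fl α (s * v) - v' * fl α (s * u)) = 0 := by
    rw [← h8, hGs]
    push_cast [hu_def, hv_def]
    ring
  have h10 := (mul_eq_zero.1 h9).resolve_left hg0
  linarith

/-- the vanishing of the commutator means that a fractional part is small -/
theorem fract_small {α : ℝ} {n u' v' : ℕ} (hu : 0 < u') (hv : 0 < v') (hc : Nat.Coprime u' v')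
    (h : (u' : ℤ) * fl α (n * v') = v' * fl α (n * u')) :
    Int.fract (α * n) < 1 / (max u' v' : ℕ) := by
  have hcz := Nat.isCoprime_iff_coprime.2 hc
  have h1 : (u' : ℤ) ∣ fl α (n * u') := hcz.dvd_of_dvd_mul_left ⟨_, h.symm⟩
  obtain ⟨j, hj⟩ := h1
  have hj2 : fl α (n * v') = v' * j := by
    have hu0 : (u' : ℤ) ≠ 0 := by exact_mod_cast hu.ne'
    apply mul_left_cancel₀ hu0
    rw [h, hj]
    ring
  have hur : (0 : ℝ) < u' := by exact_mod_cast hu
  have hvr : (0 : ℝ) < v' := by exact_mod_cast hv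
  have a1 := fl_le α (n * u')
  have a2 := lt_fl α (n * u')
  have b1 := fl_le α (n * v')
  have b2 := lt_fl α (n * v')
  rw [hj] at a1 a2
  rw [hj2] at b1 b2
  push_cast at a1 a2 b1 b2
  have c1 : (j : ℝ) ≤ α * n := by
    have : (u' : ℝ) * j ≤ u' * (α * n) := by linarith
    exact le_of_mul_le_mul_left this hur
  have c2 : (u' : ℝ) * (α * n - j) < 1 := by nlinarith
  have c3 : (v' : ℝ) * (α * n - j) < 1 := by nlinarith
  have hu1 : (1 : ℝ) ≤ u' := by exact_mod_cast hu
  have hjf : ⌊α * n⌋ = j := by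
    rw [Int.floor_eq_iff]
    refine ⟨c1, ?_⟩
    nlinarith
  have hf : Int.fract (α * n) = α * n - j := by
    rw [Int.fract, hjf]
  rw [hf, lt_div_iff₀ (by exact_mod_cast lt_max_of_lt_left hu), mul_comm]
  rcases le_total u' v' with hle | hle
  · rw [max_eq_right hle]; exact c3
  · rw [max_eq_left hle]; exact c2

/-- the measure of the set where a fractional part is small -/
theorem fract_vol (m n : ℕ) (hn : 0 < n) (c : ℝ) (_hc : 0 ≤ c) :
    volume {α : ℝ | α ∈ Ico (m : ℝ) (m + 1) ∧ Int.fract (α * n) < c} ≤ ENNReal.ofReal c := by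
  have hnr : (0 : ℝ) < n := by exact_mod_cast hn
  have hsub : {α : ℝ | α ∈ Ico (m : ℝ) (m + 1) ∧ Int.fract (α * n) < c} ⊆
      ⋃ j ∈ Finset.Ico (m * n) ((m + 1) * n), Ico ((j : ℝ) / n) ((j + c) / n) := by
    rintro α ⟨⟨h1, h2⟩, h3⟩
    have h0 : 0 ≤ α * n := by
      have : (0 : ℝ) ≤ m := Nat.cast_nonneg m
      have : 0 ≤ α := by linarith
      positivity
    have h4 : (⌊α * n⌋₊ : ℝ) ≤ α * n := Nat.floor_le h0
    have h5 : α * n - ⌊α * n⌋₊ < c := by
      have h6 : ((⌊α * n⌋₊ : ℕ) : ℤ) = ⌊α * n⌋ := Int.natCast_floor_eq_floor h0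
      have h7 : ((⌊α * n⌋₊ : ℕ) : ℝ) = (⌊α * n⌋ : ℝ) := by exact_mod_cast congrArg (Int.cast (R := ℝ)) h6
      rw [h7]
      exact h3
    rw [Set.mem_iUnion₂]
    refine ⟨⌊α * n⌋₊, ?_, ?_⟩
    · rw [Finset.mem_Ico]
      constructor
      · refine Nat.le_floor ?_
        push_cast
        exact mul_le_mul_of_nonneg_right h1 hnr.le
      · rw [Nat.floor_lt h0]
        push_cast
        exact mul_lt_mul_of_pos_right h2 hnr
    · rw [mem_Ico, div_le_iff₀ hnr, lt_div_iff₀ hnr]
      exact ⟨h4, by linarith⟩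
  refine (measure_mono hsub).trans ((measure_biUnion_finset_le _ _).trans ?_)
  have h8 : ∀ j ∈ Finset.Ico (m * n) ((m + 1) * n),
      volume (Ico ((j : ℝ) / n) ((j + c) / n)) = ENNReal.ofReal (c / n) := by
    intro j _
    rw [Real.volume_Ico]
    congr 1
    ring
  rw [Finset.sum_congr rfl h8, Finset.sum_const, Nat.card_Ico]
  have h9 : (m + 1) * n - m * n = n := by
    rw [Nat.add_mul, one_mul, Nat.add_sub_cancel_left]
  rw [h9, nsmul_eq_mul, ← ENNReal.ofReal_natCast, ← ENNReal.ofReal_mul (Nat.cast_nonneg n)]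
  apply ENNReal.ofReal_le_ofReal
  rw [mul_div_cancel₀ _ hnr.ne']

theorem param {x y z w : ℕ} (hx : 0 < x) (hy : 0 < y) (hz : 0 < z) (_hw : 0 < w)
    (h : x * y = z * w) : ∃ s t u' v' g : ℕ, 0 < s ∧ 0 < t ∧ 0 < u' ∧ 0 < v' ∧ 0 < g ∧
      Nat.Coprime s t ∧ Nat.Coprime u' v' ∧ x = t * (g * u') ∧ y = s * (g * v') ∧
      z = s * (g * u') ∧ w = t * (g * v') := by
  obtain ⟨t, s, hts, ht, hs⟩ := Nat.exists_coprime x z
  set u := Nat.gcd x z with hu
  have hu0 : 0 < u := Nat.gcd_pos_of_pos_left _ hx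
  have ht0 : 0 < t := Nat.pos_of_ne_zero fun h0 => by simp [h0] at ht; omega
  have hs0 : 0 < s := Nat.pos_of_ne_zero fun h0 => by simp [h0] at hs; omega
  have h1 : t * y = s * w := by
    have : u * (t * y) = u * (s * w) := by
      calc u * (t * y) = (t * u) * y := by ring
        _ = x * y := by rw [← ht]
        _ = z * w := h
        _ = (s * u) * w := by rw [← hs]
        _ = _ := by ring
    exact Nat.eq_of_mul_eq_mul_left hu0 this
  obtain ⟨v, hv⟩ : s ∣ y := (Nat.Coprime.dvd_mul_left hts.symm).1 ⟨w, h1⟩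
  have hw' : w = t * v := by
    apply Nat.eq_of_mul_eq_mul_left hs0
    rw [← h1, hv]
    ring
  have hv0 : 0 < v := Nat.pos_of_ne_zero fun h0 => by simp [h0] at hv; omega
  obtain ⟨u', v', hc, hu', hv'⟩ := Nat.exists_coprime u v
  set g := Nat.gcd u v with hg
  have hg0 : 0 < g := Nat.gcd_pos_of_pos_left _ hu0
  have hu'0 : 0 < u' := Nat.pos_of_ne_zero fun h0 => by simp [h0] at hu'; omega
  have hv'0 : 0 < v' := Nat.pos_of_ne_zero fun h0 => by simp [h0] at hv'; omega
  refine ⟨s, t, u', v', g, hs0, ht0, hu'0, hv'0, hg0, hts.symm, hc, ?_, ?_, ?_, ?_⟩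
  · rw [mul_comm g u', ← hu']; exact ht
  · rw [mul_comm g v', ← hv']; exact hv
  · rw [mul_comm g u', ← hu']; exact hs
  · rw [mul_comm g v', ← hv']; exact hw'

/-- **the probability of a coincidence to first order** -/
theorem fo_vol (m H : ℕ) (hH : 0 < H) {x y z w : ℕ} (hx : 0 < x) (hy : 0 < y) (hz : 0 < z)
    (hw : 0 < w) (h : x * y = z * w) (h1 : H * Nat.gcd x z < max x z)
    (h2 : H * Nat.gcd x w < max x w) :
    volume {α : ℝ | α ∈ Ico (m : ℝ) (m + 1) ∧ FO α x y z w} ≤ ENNReal.ofReal (1 / H) := by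
  obtain ⟨s, t, u', v', g, hs, ht, hu, hv, hg, hst, huv, rfl, rfl, rfl, rfl⟩ :=
    param hx hy hz hw h
  have e1 : Nat.gcd (t * (g * u')) (s * (g * u')) = g * u' := by
    rw [Nat.gcd_mul_right, Nat.Coprime.gcd_eq_one hst.symm, one_mul]
  have e2 : Nat.gcd (t * (g * u')) (t * (g * v')) = t * g := by
    rw [Nat.gcd_mul_left, Nat.gcd_mul_left, Nat.Coprime.gcd_eq_one huv, mul_one]
  have hgu : 0 < g * u' := Nat.mul_pos hg hu
  have htg : 0 < t * g := Nat.mul_pos ht hg
  rw [e1] at h1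
  rw [e2] at h2
  have k1 : H < max s t := by
    rcases le_total s t with hle | hle
    · rw [max_eq_right hle]
      rw [max_eq_left (Nat.mul_le_mul_right _ hle)] at h1
      exact lt_of_mul_lt_mul_right h1 hgu.le
    · rw [max_eq_left hle]
      rw [max_eq_right (Nat.mul_le_mul_right _ hle)] at h1
      exact lt_of_mul_lt_mul_right h1 hgu.le
  have k2 : H < max u' v' := by
    rw [← mul_assoc t g u', ← mul_assoc t g v'] at h2
    rcases le_total u' v' with hle | hle
    · rw [max_eq_right hle]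
      rw [max_eq_right (Nat.mul_le_mul_left _ hle), mul_comm H] at h2
      exact lt_of_mul_lt_mul_left h2 htg.le
    · rw [max_eq_left hle]
      rw [max_eq_left (Nat.mul_le_mul_left _ hle), mul_comm H] at h2
      exact lt_of_mul_lt_mul_left h2 htg.le
  have hHr : (0 : ℝ) < H := by exact_mod_cast hH
  rcases le_total (max u' v') (max s t) with hle | hle
  · refine (measure_mono ?_).trans (fract_vol m (s * g) (Nat.mul_pos hs hg) (1 / H) (by positivity))
    rintro α ⟨hα, hF⟩
    refine ⟨hα, ?_⟩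
    have h3 := fo_struct hs ht hg hu hv hst hle hF
    rw [← mul_assoc, ← mul_assoc] at h3
    refine (fract_small hu hv huv h3).trans_le ?_
    have : (H : ℝ) ≤ (max u' v' : ℕ) := by exact_mod_cast k2.le
    gcongr
  · refine (measure_mono ?_).trans (fract_vol m (v' * g) (Nat.mul_pos hv hg) (1 / H)
      (by positivity))
    rintro α ⟨hα, hF⟩
    refine ⟨hα, ?_⟩
    have hF' : FO α (u' * (g * t)) (v' * (g * s)) (v' * (g * t)) (u' * (g * s)) := by
      have a1 : u' * (g * t) = t * (g * u') := by ring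
      have a2 : v' * (g * s) = s * (g * v') := by ring
      have a3 : v' * (g * t) = t * (g * v') := by ring
      have a4 : u' * (g * s) = s * (g * u') := by ring
      rw [a1, a2, a3, a4]
      unfold FO at hF ⊢
      linarith
    have hle' : max t s ≤ max v' u' := by rw [max_comm t s, max_comm v' u']; exact hle
    have h3 := fo_struct hv hu hg ht hs huv.symm hle' hF'
    rw [← mul_assoc, ← mul_assoc] at h3
    refine (fract_small ht hs hst.symm h3).trans_le ?_
    have : (H : ℝ) ≤ (max t s : ℕ) := by rw [max_comm]; exact_mod_cast k1.le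
    gcongr

end Pool.Agent.Zk93.Bty
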