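import Pool.Agent.Y385.SPI.Small
import Pool.Agent.Zk93.Bty.Det

/-! Sums and products of rounded dilates of an arbitrary finite set. -/

set_option autoImplicit false

open MeasureTheory Set
open scoped Pointwise

namespace Pool.Agent.Zk93.Bty

open Pool.Agent.Y385.SPI (small small_bound)

/-- the set of the rounded dilates -/
noncomputable def img (α : ℝ) (S : Finset ℕ) : Finset ℤ := S.image (fl α)

theorem fl_inj {α : ℝ} (hα : 1 ≤ α) : Function.Injective (fl α) := by
  intro x z h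
  have h1 := fl_le α x
  have h2 := lt_fl α x
  have h3 := fl_le α z
  have h4 := lt_fl α z
  rw [h] at h1 h2
  by_contra hne
  rcases lt_or_gt_of_ne hne with hlt | hlt
  · have h5 : (x : ℝ) + 1 ≤ z := by exact_mod_cast hlt
    nlinarith
  · have h5 : (z : ℝ) + 1 ≤ x := by exact_mod_cast hlt
    nlinarith

theorem img_card {α : ℝ} (hα : 1 ≤ α) (S : Finset ℕ) : (img α S).card = S.card :=
  Finset.card_image_of_injective _ (fl_inj hα)

theorem sum_le (α : ℝ) (S : Finset ℕ) :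
    (img α S + img α S).card ≤ 2 * (S + S).card := by
  classical
  have hsub : img α S + img α S ⊆ (S + S).image (fl α) ∪ (S + S).image (fun n => fl α n - 1) := by
    intro c hc
    obtain ⟨a, ha, b, hb, rfl⟩ := Finset.mem_add.1 hc
    obtain ⟨x, hx, rfl⟩ := Finset.mem_image.1 ha
    obtain ⟨y, hy, rfl⟩ := Finset.mem_image.1 hb
    have hxy : x + y ∈ S + S := Finset.add_mem_add hx hy
    have e1 : α * ((x + y : ℕ) : ℝ) = α * x + α * y := by push_cast; ring
    have h1 : fl α x + fl α y ≤ fl α (x + y) := by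
      unfold fl
      rw [e1]
      exact Int.le_floor_add _ _
    have h2 : fl α (x + y) ≤ fl α x + fl α y + 1 := by
      unfold fl
      rw [e1]
      have h := Int.le_floor_add_floor (α * (x : ℝ)) (α * y)
      linarith
    rw [Finset.mem_union, Finset.mem_image, Finset.mem_image]
    rcases (by omega : fl α (x + y) = fl α x + fl α y ∨ fl α (x + y) - 1 = fl α x + fl α y) with
      h3 | h3
    · exact Or.inl ⟨x + y, hxy, h3⟩
    · exact Or.inr ⟨x + y, hxy, h3⟩
  refine (Finset.card_le_card hsub).trans ((Finset.card_union_le _ _).trans ?_)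
  have h1 := Finset.card_image_le (s := S + S) (f := fl α)
  have h2 := Finset.card_image_le (s := S + S) (f := fun n => fl α n - 1)
  omega

theorem le_sum {α : ℝ} (hα : 2 ≤ α) (S : Finset ℕ) :
    (S + S).card ≤ (img α S + img α S).card := by
  classical
  have hsub : S + S ⊆ (img α S + img α S).image (fun c : ℤ => ⌈(c : ℝ) / α⌉.toNat) := by
    intro n hn
    obtain ⟨x, hx, y, hy, rfl⟩ := Finset.mem_add.1 hn
    refine Finset.mem_image.2 ⟨fl α x + fl α y, Finset.add_mem_add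
      (Finset.mem_image_of_mem _ hx) (Finset.mem_image_of_mem _ hy), ?_⟩
    have h1 := fl_le α x
    have h2 := lt_fl α x
    have h3 := fl_le α y
    have h4 := lt_fl α y
    have hα0 : 0 < α := by linarith
    have h5 : ⌈((fl α x + fl α y : ℤ) : ℝ) / α⌉ = ((x + y : ℕ) : ℤ) := by
      rw [Int.ceil_eq_iff]
      push_cast
      rw [lt_div_iff₀ hα0, div_le_iff₀ hα0]
      constructor
      · nlinarith
      · nlinarith
    rw [h5]
    exact Int.toNat_natCast _
  exact (Finset.card_le_card hsub).trans Finset.card_image_le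

/-- the multiplicative energy -/
noncomputable def en (A : Finset ℤ) : ℕ :=
  (((A ×ˢ A) ×ˢ (A ×ˢ A)).filter fun q : (ℤ × ℤ) × (ℤ × ℤ) => q.1.1 * q.2.1 = q.1.2 * q.2.2).card

theorem en_mono {X A : Finset ℤ} (h : X ⊆ A) : en X ≤ en A := by
  unfold en
  refine Finset.card_le_card (Finset.filter_subset_filter _ ?_)
  exact Finset.product_subset_product (Finset.product_subset_product h h)
    (Finset.product_subset_product h h)

theorem cs (X : Finset ℤ) : X.card ^ 4 ≤ (X * X).card * en X := by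
  have h := Finset.le_card_mul_mul_mulEnergy X X
  have e : Finset.mulEnergy X X = en X := by
    unfold Finset.mulEnergy en
    rfl
  rw [e] at h
  calc X.card ^ 4 = X.card ^ 2 * X.card ^ 2 := by ring
    _ ≤ _ := h

/-- the quadruples of large heights -/
def big (S : Finset ℕ) (H : ℕ) : Finset ((ℕ × ℕ) × (ℕ × ℕ)) :=
  ((S ×ˢ S) ×ˢ (S ×ˢ S)).filter fun q => q.1.1 * q.2.1 = q.1.2 * q.2.2 ∧
    H * Nat.gcd q.1.1 q.1.2 < max q.1.1 q.1.2 ∧ H * Nat.gcd q.1.1 q.2.2 < max q.1.1 q.2.2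

/-- the exceptional set -/
def bad (S : Finset ℕ) (H m : ℕ) : Set ℝ :=
  ⋃ q ∈ big S H, {α : ℝ | α ∈ Ico (m : ℝ) (m + 1) ∧ FO α q.1.1 q.2.1 q.1.2 q.2.2}

theorem bad_vol (S : Finset ℕ) (hS : ∀ s ∈ S, 0 < s) (H m : ℕ) (hH : 0 < H) :
    volume (bad S H m) ≤ ENNReal.ofReal ((S.card : ℝ) ^ 4 / H) := by
  have hHr : (0 : ℝ) < H := by exact_mod_cast hH
  unfold bad
  refine (measure_biUnion_finset_le _ _).trans ?_
  have h1 : ∀ q ∈ big S H,
      volume {α : ℝ | α ∈ Ico (m : ℝ) (m + 1) ∧ FO α q.1.1 q.2.1 q.1.2 q.2.2} ≤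
        ENNReal.ofReal (1 / H) := by
    intro q hq
    unfold big at hq
    rw [Finset.mem_filter, Finset.mem_product, Finset.mem_product, Finset.mem_product] at hq
    obtain ⟨⟨⟨hx, hz⟩, hy, hw⟩, he, hg1, hg2⟩ := hq
    exact fo_vol m H hH (hS _ hx) (hS _ hy) (hS _ hz) (hS _ hw) he hg1 hg2
  refine (Finset.sum_le_sum h1).trans ?_
  rw [Finset.sum_const, nsmul_eq_mul, ← ENNReal.ofReal_natCast,
    ← ENNReal.ofReal_mul (Nat.cast_nonneg _)]
  apply ENNReal.ofReal_le_ofReal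
  have h2 : (big S H).card ≤ S.card ^ 4 := by
    refine (Finset.card_filter_le _ _).trans (le_of_eq ?_)
    rw [Finset.card_product, Finset.card_product]
    ring
  have h3 : ((big S H).card : ℝ) ≤ (S.card : ℝ) ^ 4 := by exact_mod_cast h2
  rw [mul_one_div]
  gcongr

/-- outside the exceptional set all coincidences have a small height -/
theorem en_le (S : Finset ℕ) (H m : ℕ) (hm : ∀ s ∈ S, 2 * s < m)
    {α : ℝ} (hα : α ∈ Ico (m : ℝ) (m + 1)) (hb : α ∉ bad S H m) (hne : S.Nonempty) :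
    en (img α S) ≤ 2 * (small S H).card := by
  classical
  obtain ⟨s0, hs0⟩ := hne
  have hm1 : 1 ≤ m := by have := hm s0 hs0; omega
  set M : ℕ := (m - 1) / 2 with hM
  have hMm : 2 * M + 1 ≤ m := by omega
  have hSM : ∀ s ∈ S, s ≤ M := fun s hs => by have := hm s hs; omega
  have hαM : 2 * (M : ℝ) + 1 ≤ α := by
    have : ((2 * M + 1 : ℕ) : ℝ) ≤ m := by exact_mod_cast hMm
    push_cast at this
    exact this.trans hα.1
  have hα1 : 1 ≤ α := by
    have : (0 : ℝ) ≤ M := Nat.cast_nonneg _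
    linarith
  -- the coincidences as quadruples of `S`
  set Q := ((S ×ˢ S) ×ˢ (S ×ˢ S)).filter fun q : (ℕ × ℕ) × (ℕ × ℕ) =>
    fl α q.1.1 * fl α q.2.1 = fl α q.1.2 * fl α q.2.2 with hQ
  have h1 : en (img α S) ≤ Q.card := by
    unfold en
    have hsub : ((img α S ×ˢ img α S) ×ˢ (img α S ×ˢ img α S)).filter
        (fun q : (ℤ × ℤ) × (ℤ × ℤ) => q.1.1 * q.2.1 = q.1.2 * q.2.2) ⊆
        Q.image (fun q => ((fl α q.1.1, fl α q.1.2), (fl α q.2.1, fl α q.2.2))) := by
      rintro ⟨⟨a, c⟩, ⟨b, e⟩⟩ hq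
      rw [Finset.mem_filter, Finset.mem_product, Finset.mem_product, Finset.mem_product] at hq
      obtain ⟨⟨⟨ha, hc⟩, hb', he'⟩, heq⟩ := hq
      obtain ⟨x, hx, rfl⟩ := Finset.mem_image.1 ha
      obtain ⟨z, hz, rfl⟩ := Finset.mem_image.1 hc
      obtain ⟨y, hy, rfl⟩ := Finset.mem_image.1 hb'
      obtain ⟨w, hw, rfl⟩ := Finset.mem_image.1 he'
      refine Finset.mem_image.2 ⟨((x, z), (y, w)), ?_, rfl⟩
      rw [hQ, Finset.mem_filter, Finset.mem_product, Finset.mem_product, Finset.mem_product]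
      exact ⟨⟨⟨hx, hz⟩, hy, hw⟩, heq⟩
    exact (Finset.card_le_card hsub).trans Finset.card_image_le
  refine h1.trans ?_
  have h2 : Q ⊆ small S H ∪ (small S H).image (fun q => ((q.1.1, q.2.2), (q.2.1, q.1.2))) := by
    rintro ⟨⟨x, z⟩, ⟨y, w⟩⟩ hq
    rw [hQ, Finset.mem_filter, Finset.mem_product, Finset.mem_product, Finset.mem_product] at hq
    obtain ⟨⟨⟨hx, hz⟩, hy, hw⟩, heq⟩ := hq
    simp only at hx hz hy hw heq
    obtain ⟨hxy, hF⟩ := coin hαM (hSM x hx) (hSM y hy) (hSM z hz) (hSM w hw) heq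
    rw [Finset.mem_union]
    by_cases hc1 : max x z ≤ H * Nat.gcd x z
    · left
      unfold Pool.Agent.Y385.SPI.small
      rw [Finset.mem_filter, Finset.mem_product, Finset.mem_product, Finset.mem_product]
      exact ⟨⟨⟨hx, hz⟩, hy, hw⟩, hxy, hc1⟩
    · right
      have hc2 : max x w ≤ H * Nat.gcd x w := by
        by_contra hc2
        apply hb
        unfold bad
        rw [Set.mem_iUnion₂]
        refine ⟨((x, z), (y, w)), ?_, hα, hF⟩
        unfold big
        rw [Finset.mem_filter, Finset.mem_product, Finset.mem_product, Finset.mem_product]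
        exact ⟨⟨⟨hx, hz⟩, hy, hw⟩, hxy, not_le.1 hc1, not_le.1 hc2⟩
      refine Finset.mem_image.2 ⟨((x, w), (y, z)), ?_, rfl⟩
      unfold Pool.Agent.Y385.SPI.small
      rw [Finset.mem_filter, Finset.mem_product, Finset.mem_product, Finset.mem_product]
      exact ⟨⟨⟨hx, hw⟩, hy, hz⟩, by rw [hxy, mul_comm], hc2⟩
  refine (Finset.card_le_card h2).trans ((Finset.card_union_le _ _).trans ?_)
  have h3 := Finset.card_image_le (s := small S H)
    (f := fun q : (ℕ × ℕ) × (ℕ × ℕ) => ((q.1.1, q.2.2), (q.2.1, q.1.2)))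
  omega

theorem main (ε D : ℝ) (hε : 0 < ε) (hD : 0 < D) : ∃ C : ℝ, 1 ≤ C ∧
    ∀ (S : Finset ℕ) (m : ℕ), S.Nonempty → (∀ s ∈ S, 0 < s ∧ 2 * s < m) →
      ∃ B : Set ℝ, volume B ≤ ENNReal.ofReal ((S.card : ℝ) ^ (-D)) ∧
        ∀ α ∈ Ico (m : ℝ) (m + 1), α ∉ B →
          (en (img α S) : ℝ) ≤ C * (S.card : ℝ) ^ (2 + ε) := by
  obtain ⟨K, hK, hb⟩ := small_bound (ε / (D + 5)) (by positivity)
  refine ⟨2 * K * 2 ^ (ε / (D + 5)) + 1, ?_, ?_⟩
  · have : (0 : ℝ) < 2 * K * 2 ^ (ε / (D + 5)) := by positivity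
    linarith
  intro S m hne hS
  set N : ℝ := (S.card : ℝ) with hN
  have hN1 : 1 ≤ N := by
    rw [hN]
    exact_mod_cast Finset.card_pos.2 hne
  have hN0 : 0 < N := by linarith
  set H : ℕ := ⌈N ^ (D + 4)⌉₊ with hH
  have hP1 : 1 ≤ N ^ (D + 4) := Real.one_le_rpow hN1 (by linarith)
  have hHle : N ^ (D + 4) ≤ H := Nat.le_ceil _
  have hHge : (H : ℝ) ≤ 2 * N ^ (D + 4) := by
    have := Nat.ceil_lt_add_one (by positivity : 0 ≤ N ^ (D + 4))
    rw [← hH] at this
    linarith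
  have hH0 : 0 < H := by
    have : (0 : ℝ) < H := by linarith
    exact_mod_cast this
  have hHr : (0 : ℝ) < H := by exact_mod_cast hH0
  refine ⟨bad S H m, ?_, ?_⟩
  · refine (bad_vol S (fun s hs => (hS s hs).1) H m hH0).trans (ENNReal.ofReal_le_ofReal ?_)
    rw [← hN, div_le_iff₀ hHr]
    calc N ^ 4 = N ^ (-D) * N ^ (D + 4) := by
          rw [← Real.rpow_add hN0, neg_add_cancel_left]
          norm_cast
      _ ≤ N ^ (-D) * H := by gcongr
  · intro α hα hnb
    have h1 := en_le S H m (fun s hs => (hS s hs).2) hα hnb hne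
    have h2 : (en (img α S) : ℝ) ≤ 2 * ((small S H).card : ℝ) := by exact_mod_cast h1
    have h3 := hb H hH0 S (fun x hx => (hS x hx).1.ne')
    rw [← hN] at h3
    have h4 : ((H : ℝ) * N) ^ (ε / (D + 5)) ≤ 2 ^ (ε / (D + 5)) * N ^ ε := by
      have h5 : (H : ℝ) * N ≤ 2 * N ^ (D + 5) := by
        calc (H : ℝ) * N ≤ 2 * N ^ (D + 4) * N := by gcongr
          _ = 2 * N ^ (D + 5) := by
            rw [mul_assoc, ← Real.rpow_add_one hN0.ne']
            congr 2
            ring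
      calc ((H : ℝ) * N) ^ (ε / (D + 5)) ≤ (2 * N ^ (D + 5)) ^ (ε / (D + 5)) := by gcongr
        _ = 2 ^ (ε / (D + 5)) * N ^ ε := by
          rw [Real.mul_rpow (by norm_num) (by positivity), ← Real.rpow_mul hN0.le]
          congr 2
          field_simp
    calc (en (img α S) : ℝ) ≤ 2 * (K * ((H : ℝ) * N) ^ (ε / (D + 5)) * N ^ 2) := by linarith
      _ ≤ 2 * (K * (2 ^ (ε / (D + 5)) * N ^ ε) * N ^ 2) := by gcongr
      _ = (2 * K * 2 ^ (ε / (D + 5))) * (N ^ (2 : ℕ) * N ^ ε) := by ring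
      _ = (2 * K * 2 ^ (ε / (D + 5))) * N ^ (2 + ε) := by
        rw [Real.rpow_add hN0]
        norm_cast
      _ ≤ _ := by
        gcongr
        linarith

end Pool.Agent.Zk93.Bty
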