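import Pool.Agent.Zk93.Bty.Main

/-! Structure of the coincidences of products of rounded dilates, for every dilation factor. -/

set_option autoImplicit false

open MeasureTheory Set
open scoped Pointwise

namespace Pool.Agent.Zk93.Bty

open Pool.Agent.Y385.SPI (small small_bound)

/-- rounding preserves the ratio `a / b` -/
def Fr (α : ℝ) (a b : ℕ) : Prop := (a : ℤ) * fl α b = b * fl α a

/-- **structure of the coincidences** -/
theorem pres {α : ℝ} {M x y z w : ℕ} (hM : 2 * M + 1 ≤ α) (hx0 : 0 < x) (hy0 : 0 < y)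
    (hz0 : 0 < z) (hw0 : 0 < w) (hx : x ≤ M) (hy : y ≤ M) (hz : z ≤ M)
    (hw : w ≤ M) (h : fl α x * fl α y = fl α z * fl α w) :
    x * y = z * w ∧ ((Fr α x z ∧ Fr α y w) ∨ (Fr α x w ∧ Fr α y z)) := by
  obtain ⟨hxy, hF⟩ := coin hM hx hy hz hw h
  refine ⟨hxy, ?_⟩
  obtain ⟨s, t, u', v', g, hs, ht, hu, hv, hg, hst, huv, ex, ey, ez, ew⟩ :=
    param hx0 hy0 hz0 hw0 hxy
  have hxyz : (x : ℤ) * y = z * w := by exact_mod_cast hxy
  have hyne : (y : ℤ) ≠ 0 := by exact_mod_cast hy0.ne'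
  have hF0 : (x : ℤ) * fl α y + y * fl α x = z * fl α w + w * fl α z := hF
  rcases le_total (max u' v') (max s t) with hle | hle
  · right
    have hF1 : FO α (t * (g * u')) (s * (g * v')) (s * (g * u')) (t * (g * v')) := by
      rw [← ex, ← ey, ← ez, ← ew]; exact hF
    have h3 := fo_struct hs ht hg hu hv hst hle hF1
    rw [← ey, ← ez] at h3
    -- `y ~ z`
    have h4 : (z : ℤ) * fl α y = y * fl α z := by
      have : (z : ℤ) * fl α y = (s * g : ℤ) * ((u' : ℤ) * fl α y) := by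
        rw [ez]; push_cast; ring
      rw [this, h3]
      have : (y : ℤ) * fl α z = (s * g : ℤ) * ((v' : ℤ) * fl α z) := by
        rw [ey]; push_cast; ring
      rw [this]
    -- `x ~ w`
    have h5 : (x : ℤ) * fl α w = w * fl α x := by
      -- `y (x fl w) = z w fl w`, `y w fl x`
      apply mul_left_cancel₀ hyne
      apply mul_left_cancel₀ hyne
      -- y y x fl w = y y w fl x
      have k1 : (y : ℤ) * (x * fl α y + y * fl α x) = y * (z * fl α w + w * fl α z) := by rw [hF0]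
      have k2 : (y : ℤ) * (w * fl α z) = w * (z * fl α y) := by rw [h4]; ring
      have k3 : (y : ℤ) * (y * fl α x) = y * (z * fl α w) := by
        have e1 : (y : ℤ) * (x * fl α y) = w * (z * fl α y) := by
          linear_combination (fl α y) * hxyz
        rw [mul_add, mul_add] at k1
        linarith
      calc (y : ℤ) * (y * (x * fl α w)) = y * ((x * y) * fl α w) := by ring
        _ = y * ((z * w) * fl α w) := by rw [hxyz]
        _ = w * (y * (z * fl α w)) := by ring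
        _ = w * (y * (y * fl α x)) := by rw [k3]
        _ = _ := by ring
    exact ⟨h5, h4.symm⟩
  · left
    have hF' : FO α (u' * (g * t)) (v' * (g * s)) (v' * (g * t)) (u' * (g * s)) := by
      have a1 : u' * (g * t) = x := by rw [ex]; ring
      have a2 : v' * (g * s) = y := by rw [ey]; ring
      have a3 : v' * (g * t) = w := by rw [ew]; ring
      have a4 : u' * (g * s) = z := by rw [ez]; ring
      rw [a1, a2, a3, a4]
      unfold FO
      linarith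
    have hle' : max t s ≤ max v' u' := by rw [max_comm t s, max_comm v' u']; exact hle
    have h3 := fo_struct hv hu hg ht hs huv.symm hle' hF'
    have a2 : v' * (g * s) = y := by rw [ey]; ring
    have a3 : v' * (g * t) = w := by rw [ew]; ring
    rw [a2, a3] at h3
    have h4 : (w : ℤ) * fl α y = y * fl α w := by
      have : (w : ℤ) * fl α y = (v' * g : ℤ) * ((t : ℤ) * fl α y) := by
        rw [ew]; push_cast; ring
      rw [this, h3]
      have : (y : ℤ) * fl α w = (v' * g : ℤ) * ((s : ℤ) * fl α w) := by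
        rw [ey]; push_cast; ring
      rw [this]
    have h5 : (x : ℤ) * fl α z = z * fl α x := by
      apply mul_left_cancel₀ hyne
      apply mul_left_cancel₀ hyne
      have k1 : (y : ℤ) * (x * fl α y + y * fl α x) = y * (z * fl α w + w * fl α z) := by rw [hF0]
      have k2 : (y : ℤ) * (z * fl α w) = z * (w * fl α y) := by rw [h4]; ring
      have k3 : (y : ℤ) * (y * fl α x) = y * (w * fl α z) := by
        have e1 : (y : ℤ) * (x * fl α y) = z * (w * fl α y) := by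
          linear_combination (fl α y) * hxyz
        rw [mul_add, mul_add] at k1
        linarith
      calc (y : ℤ) * (y * (x * fl α z)) = y * ((x * y) * fl α z) := by ring
        _ = y * ((z * w) * fl α z) := by rw [hxyz]
        _ = z * (y * (w * fl α z)) := by ring
        _ = z * (y * (y * fl α x)) := by rw [k3]
        _ = _ := by ring
    exact ⟨h5, h4.symm⟩

/-- conversely these quadruples are coincidences -/
theorem pres_conv {α : ℝ} {x y z w : ℕ} (hx0 : 0 < x) (hy0 : 0 < y) (hxy : x * y = z * w)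
    (h1 : Fr α x z) (h2 : Fr α y w) : fl α x * fl α y = fl α z * fl α w := by
  have hxyz : (x : ℤ) * y = z * w := by exact_mod_cast hxy
  have hne : (x : ℤ) * y ≠ 0 := by
    have h1 : (x : ℤ) ≠ 0 := by exact_mod_cast hx0.ne'
    have h2 : (y : ℤ) ≠ 0 := by exact_mod_cast hy0.ne'
    exact mul_ne_zero h1 h2
  unfold Fr at h1 h2
  apply mul_left_cancel₀ hne
  calc (x : ℤ) * y * (fl α x * fl α y) = (z * w) * (fl α x * fl α y) := by rw [hxyz]
    _ = (z * fl α x) * (w * fl α y) := by ring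
    _ = (x * fl α z) * (y * fl α w) := by rw [h1, h2]
    _ = _ := by ring

/-- the number of the quadruples `x y = z w` with preserved ratios `x / z` and `y / w` -/
noncomputable def pe (α : ℝ) (S : Finset ℕ) : ℕ := by
  classical
  exact (((S ×ˢ S) ×ˢ (S ×ˢ S)).filter fun q : (ℕ × ℕ) × (ℕ × ℕ) =>
    q.1.1 * q.2.1 = q.1.2 * q.2.2 ∧ Fr α q.1.1 q.1.2 ∧ Fr α q.2.1 q.2.2).card

theorem le_M {α : ℝ} {S : Finset ℕ} (hS : ∀ s ∈ S, 0 < s ∧ 2 * (s : ℝ) + 1 ≤ α)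
    (hne : S.Nonempty) : ∃ M : ℕ, 2 * (M : ℝ) + 1 ≤ α ∧ ∀ s ∈ S, s ≤ M := by
  refine ⟨S.max' hne, (hS _ (S.max'_mem hne)).2, fun s hs => S.le_max' s hs⟩

theorem en_eq (α : ℝ) (S : Finset ℕ) (hα : 1 ≤ α) :
    en (img α S) = (((S ×ˢ S) ×ˢ (S ×ˢ S)).filter fun q : (ℕ × ℕ) × (ℕ × ℕ) =>
      fl α q.1.1 * fl α q.2.1 = fl α q.1.2 * fl α q.2.2).card := by
  classical
  unfold en
  symm
  refine Finset.card_bij (fun q _ => ((fl α q.1.1, fl α q.1.2), (fl α q.2.1, fl α q.2.2))) ?_ ?_ ?_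
  · rintro ⟨⟨x, z⟩, ⟨y, w⟩⟩ hq
    rw [Finset.mem_filter, Finset.mem_product, Finset.mem_product, Finset.mem_product] at hq ⊢
    obtain ⟨⟨⟨hx, hz⟩, hy, hw⟩, heq⟩ := hq
    exact ⟨⟨⟨Finset.mem_image_of_mem _ hx, Finset.mem_image_of_mem _ hz⟩,
      Finset.mem_image_of_mem _ hy, Finset.mem_image_of_mem _ hw⟩, heq⟩
  · rintro ⟨⟨x, z⟩, ⟨y, w⟩⟩ _ ⟨⟨x', z'⟩, ⟨y', w'⟩⟩ _ h
    simp only [Prod.mk.injEq] at h
    obtain ⟨⟨h1, h2⟩, h3, h4⟩ := h
    rw [fl_inj hα h1, fl_inj hα h2, fl_inj hα h3, fl_inj hα h4]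
  · rintro ⟨⟨a, c⟩, ⟨b, e⟩⟩ hq
    rw [Finset.mem_filter, Finset.mem_product, Finset.mem_product, Finset.mem_product] at hq
    obtain ⟨⟨⟨ha, hc⟩, hb', he'⟩, heq⟩ := hq
    obtain ⟨x, hx, rfl⟩ := Finset.mem_image.1 ha
    obtain ⟨z, hz, rfl⟩ := Finset.mem_image.1 hc
    obtain ⟨y, hy, rfl⟩ := Finset.mem_image.1 hb'
    obtain ⟨w, hw, rfl⟩ := Finset.mem_image.1 he'
    refine ⟨((x, z), (y, w)), ?_, rfl⟩
    rw [Finset.mem_filter, Finset.mem_product, Finset.mem_product, Finset.mem_product]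
    exact ⟨⟨⟨hx, hz⟩, hy, hw⟩, heq⟩

theorem pe_le (α : ℝ) (S : Finset ℕ) (hS : ∀ s ∈ S, 0 < s ∧ 2 * (s : ℝ) + 1 ≤ α)
    (hne : S.Nonempty) : pe α S ≤ en (img α S) := by
  classical
  have hα : 1 ≤ α := by
    obtain ⟨s, hs⟩ := hne
    have h1 := (hS s hs).2
    have : (0 : ℝ) ≤ s := Nat.cast_nonneg s
    linarith
  rw [en_eq α S hα]
  unfold pe
  refine Finset.card_le_card ?_
  rintro ⟨⟨x, z⟩, ⟨y, w⟩⟩ hq
  rw [Finset.mem_filter, Finset.mem_product, Finset.mem_product, Finset.mem_product] at hq ⊢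
  obtain ⟨⟨⟨hx, hz⟩, hy, hw⟩, heq, h1, h2⟩ := hq
  exact ⟨⟨⟨hx, hz⟩, hy, hw⟩, pres_conv (hS x hx).1 (hS y hy).1 heq h1 h2⟩

theorem le_pe (α : ℝ) (S : Finset ℕ) (hS : ∀ s ∈ S, 0 < s ∧ 2 * (s : ℝ) + 1 ≤ α)
    (hne : S.Nonempty) : en (img α S) ≤ 2 * pe α S := by
  classical
  obtain ⟨M, hM, hSM⟩ := le_M hS hne
  have hα : 1 ≤ α := by
    have : (0 : ℝ) ≤ M := Nat.cast_nonneg M
    linarith
  rw [en_eq α S hα]
  set P := ((S ×ˢ S) ×ˢ (S ×ˢ S)).filter fun q : (ℕ × ℕ) × (ℕ × ℕ) =>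
    q.1.1 * q.2.1 = q.1.2 * q.2.2 ∧ Fr α q.1.1 q.1.2 ∧ Fr α q.2.1 q.2.2 with hP
  have hpe : pe α S = P.card := rfl
  rw [hpe]
  have h2 : (((S ×ˢ S) ×ˢ (S ×ˢ S)).filter fun q : (ℕ × ℕ) × (ℕ × ℕ) =>
      fl α q.1.1 * fl α q.2.1 = fl α q.1.2 * fl α q.2.2) ⊆
      P ∪ P.image (fun q => ((q.1.1, q.2.2), (q.2.1, q.1.2))) := by
    rintro ⟨⟨x, z⟩, ⟨y, w⟩⟩ hq
    rw [Finset.mem_filter, Finset.mem_product, Finset.mem_product, Finset.mem_product] at hq
    obtain ⟨⟨⟨hx, hz⟩, hy, hw⟩, heq⟩ := hq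
    simp only at hx hz hy hw heq
    obtain ⟨hxy, hc⟩ := pres hM (hS x hx).1 (hS y hy).1 (hS z hz).1 (hS w hw).1
      (hSM x hx) (hSM y hy) (hSM z hz) (hSM w hw) heq
    rw [Finset.mem_union]
    rcases hc with ⟨h1, h2⟩ | ⟨h1, h2⟩
    · left
      rw [hP, Finset.mem_filter, Finset.mem_product, Finset.mem_product, Finset.mem_product]
      exact ⟨⟨⟨hx, hz⟩, hy, hw⟩, hxy, h1, h2⟩
    · right
      refine Finset.mem_image.2 ⟨((x, w), (y, z)), ?_, rfl⟩
      rw [hP, Finset.mem_filter, Finset.mem_product, Finset.mem_product, Finset.mem_product]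
      exact ⟨⟨⟨hx, hw⟩, hy, hz⟩, by rw [hxy, mul_comm], h1, h2⟩
  refine (Finset.card_le_card h2).trans ((Finset.card_union_le _ _).trans ?_)
  have h3 := Finset.card_image_le (s := P)
    (f := fun q : (ℕ × ℕ) × (ℕ × ℕ) => ((q.1.1, q.2.2), (q.2.1, q.1.2)))
  omega

/-- preserved ratios of small height -/
theorem pe_small (α : ℝ) (S : Finset ℕ) (H : ℕ)
    (hH : ∀ a ∈ S, ∀ b ∈ S, Fr α a b → max a b ≤ H * Nat.gcd a b) :
    pe α S ≤ (small S H).card := by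
  classical
  unfold pe
  refine Finset.card_le_card ?_
  rintro ⟨⟨x, z⟩, ⟨y, w⟩⟩ hq
  unfold Pool.Agent.Y385.SPI.small
  rw [Finset.mem_filter, Finset.mem_product, Finset.mem_product, Finset.mem_product] at hq ⊢
  obtain ⟨⟨⟨hx, hz⟩, hy, hw⟩, heq, h1, _⟩ := hq
  exact ⟨⟨⟨hx, hz⟩, hy, hw⟩, heq, hH x hx z hz h1⟩

theorem mainS (ε D : ℝ) (hε : 0 < ε) (hD : 0 < D) : ∃ C : ℝ, 1 ≤ C ∧
    ∀ (S : Finset ℕ) (α : ℝ), S.Nonempty → (∀ s ∈ S, 0 < s ∧ 2 * (s : ℝ) + 1 ≤ α) →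
      (∀ a ∈ S, ∀ b ∈ S, Fr α a b → (max a b : ℝ) ≤ (S.card : ℝ) ^ D * Nat.gcd a b) →
          (en (img α S) : ℝ) ≤ C * (S.card : ℝ) ^ (2 + ε) := by
  obtain ⟨K, hK, hb⟩ := small_bound (ε / (D + 1)) (by positivity)
  refine ⟨2 * K * 2 ^ (ε / (D + 1)) + 1, ?_, ?_⟩
  · have : (0 : ℝ) < 2 * K * 2 ^ (ε / (D + 1)) := by positivity
    linarith
  intro S α hne hS hfr
  set N : ℝ := (S.card : ℝ) with hN
  have hN1 : 1 ≤ N := by
    rw [hN]
    exact_mod_cast Finset.card_pos.2 hne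
  have hN0 : 0 < N := by linarith
  set H : ℕ := ⌈N ^ D⌉₊ with hH
  have hP1 : 1 ≤ N ^ D := Real.one_le_rpow hN1 hD.le
  have hHle : N ^ D ≤ H := Nat.le_ceil _
  have hHge : (H : ℝ) ≤ 2 * N ^ D := by
    have := Nat.ceil_lt_add_one (by positivity : 0 ≤ N ^ D)
    rw [← hH] at this
    linarith
  have hH0 : 0 < H := by
    have : (0 : ℝ) < H := by linarith
    exact_mod_cast this
  have h0 := le_pe α S hS hne
  have h1 := pe_small α S H (fun a ha b hb' hF => by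
    have h2 := hfr a ha b hb' hF
    have h3 : (max a b : ℝ) ≤ H * Nat.gcd a b :=
      h2.trans (mul_le_mul_of_nonneg_right hHle (Nat.cast_nonneg _))
    exact_mod_cast h3)
  have h2 : (en (img α S) : ℝ) ≤ 2 * ((small S H).card : ℝ) := by
    exact_mod_cast h0.trans (Nat.mul_le_mul_left 2 h1)
  have h3 := hb H hH0 S (fun x hx => (hS x hx).1.ne')
  rw [← hN] at h3
  have h4 : ((H : ℝ) * N) ^ (ε / (D + 1)) ≤ 2 ^ (ε / (D + 1)) * N ^ ε := by
    have h5 : (H : ℝ) * N ≤ 2 * N ^ (D + 1) := by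
      calc (H : ℝ) * N ≤ 2 * N ^ D * N := by gcongr
        _ = 2 * N ^ (D + 1) := by
          rw [mul_assoc, ← Real.rpow_add_one hN0.ne']
    calc ((H : ℝ) * N) ^ (ε / (D + 1)) ≤ (2 * N ^ (D + 1)) ^ (ε / (D + 1)) := by gcongr
      _ = 2 ^ (ε / (D + 1)) * N ^ ε := by
        rw [Real.mul_rpow (by norm_num) (by positivity), ← Real.rpow_mul hN0.le]
        congr 2
        field_simp
  calc (en (img α S) : ℝ) ≤ 2 * (K * ((H : ℝ) * N) ^ (ε / (D + 1)) * N ^ 2) := by linarith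
    _ ≤ 2 * (K * (2 ^ (ε / (D + 1)) * N ^ ε) * N ^ 2) := by gcongr
    _ = (2 * K * 2 ^ (ε / (D + 1))) * (N ^ (2 : ℕ) * N ^ ε) := by ring
    _ = (2 * K * 2 ^ (ε / (D + 1))) * N ^ (2 + ε) := by
      rw [Real.rpow_add hN0]
      norm_cast
    _ ≤ _ := by
      gcongr
      linarith

/-- the measure of the set where a ratio is preserved -/
theorem fr_vol (m : ℕ) {a b : ℕ} (ha : 0 < a) (hb : 0 < b) {H : ℝ} (hH : 0 < H)
    (h : H * Nat.gcd a b < max (a : ℝ) b) :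
    volume {α : ℝ | α ∈ Ico (m : ℝ) (m + 1) ∧ Fr α a b} ≤ ENNReal.ofReal (1 / H) := by
  obtain ⟨a', b', hc, ea, eb⟩ := Nat.exists_coprime a b
  set g := Nat.gcd a b with hg
  have hg0 : 0 < g := Nat.gcd_pos_of_pos_left _ ha
  have ha' : 0 < a' := Nat.pos_of_ne_zero fun h0 => by simp [h0] at ea; omega
  have hb' : 0 < b' := Nat.pos_of_ne_zero fun h0 => by simp [h0] at eb; omega
  have hgr : (0 : ℝ) < g := by exact_mod_cast hg0
  have k : H < max (a' : ℝ) b' := by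
    have h1 : (max (a : ℝ) b) = max (a' : ℝ) b' * g := by
      rw [max_mul_of_nonneg _ _ hgr.le]
      rw [ea, eb]
      push_cast
      rfl
    rw [h1] at h
    exact lt_of_mul_lt_mul_right h hgr.le
  refine (measure_mono ?_).trans (fract_vol m g hg0 (1 / H) (by positivity))
  rintro α ⟨hα, hF⟩
  refine ⟨hα, ?_⟩
  have hF0 : (a : ℤ) * fl α b = b * fl α a := hF
  have h3 : (a' : ℤ) * fl α (g * b') = b' * fl α (g * a') := by
    have hgz : (g : ℤ) ≠ 0 := by exact_mod_cast hg0.ne'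
    apply mul_left_cancel₀ hgz
    have e1 : g * b' = b := by rw [mul_comm]; exact eb.symm
    have e2 : g * a' = a := by rw [mul_comm]; exact ea.symm
    rw [e1, e2]
    calc (g : ℤ) * (a' * fl α b) = ((g * a' : ℕ) : ℤ) * fl α b := by push_cast; ring
      _ = (a : ℤ) * fl α b := by rw [e2]
      _ = b * fl α a := hF0
      _ = ((g * b' : ℕ) : ℤ) * fl α a := by rw [e1]
      _ = _ := by push_cast; ring
  refine (fract_small ha' hb' hc h3).trans_le ?_
  have : H ≤ (max a' b' : ℕ) := by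
    have : ((max a' b' : ℕ) : ℝ) = max (a' : ℝ) b' := by push_cast; rfl
    rw [this]
    exact k.le
  gcongr

theorem bad_vol' (S : Finset ℕ) (hS : ∀ s ∈ S, 0 < s) (m : ℕ) {H : ℝ} (hH : 0 < H) :
    volume {α : ℝ | α ∈ Ico (m : ℝ) (m + 1) ∧
      ∃ a ∈ S, ∃ b ∈ S, Fr α a b ∧ H * Nat.gcd a b < max (a : ℝ) b} ≤
        ENNReal.ofReal ((S.card : ℝ) ^ 2 / H) := by
  classical
  set T := (S ×ˢ S).filter fun p : ℕ × ℕ => H * Nat.gcd p.1 p.2 < max (p.1 : ℝ) p.2 with hT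
  have hsub : {α : ℝ | α ∈ Ico (m : ℝ) (m + 1) ∧
      ∃ a ∈ S, ∃ b ∈ S, Fr α a b ∧ H * Nat.gcd a b < max (a : ℝ) b} ⊆
      ⋃ p ∈ T, {α : ℝ | α ∈ Ico (m : ℝ) (m + 1) ∧ Fr α p.1 p.2} := by
    rintro α ⟨hα, a, ha, b, hb, hF, hlt⟩
    rw [Set.mem_iUnion₂]
    refine ⟨(a, b), ?_, hα, hF⟩
    rw [hT, Finset.mem_filter, Finset.mem_product]
    exact ⟨⟨ha, hb⟩, hlt⟩
  refine (measure_mono hsub).trans ((measure_biUnion_finset_le _ _).trans ?_)
  have h1 : ∀ p ∈ T, volume {α : ℝ | α ∈ Ico (m : ℝ) (m + 1) ∧ Fr α p.1 p.2} ≤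
      ENNReal.ofReal (1 / H) := by
    intro p hp
    rw [hT, Finset.mem_filter, Finset.mem_product] at hp
    exact fr_vol m (hS _ hp.1.1) (hS _ hp.1.2) hH hp.2
  refine (Finset.sum_le_sum h1).trans ?_
  rw [Finset.sum_const, nsmul_eq_mul, ← ENNReal.ofReal_natCast,
    ← ENNReal.ofReal_mul (Nat.cast_nonneg _)]
  apply ENNReal.ofReal_le_ofReal
  have h2 : T.card ≤ S.card ^ 2 := by
    refine (Finset.card_filter_le _ _).trans (le_of_eq ?_)
    rw [Finset.card_product]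
    ring
  have h3 : (T.card : ℝ) ≤ (S.card : ℝ) ^ 2 := by exact_mod_cast h2
  rw [mul_one_div]
  gcongr

end Pool.Agent.Zk93.Bty
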